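import Mathlib

/-!
Board ghk (MP_52e316_nt): rank 2, the density against the analytic conductor.
-/

set_option autoImplicit false

namespace Pool.Agent.H27.L1.H12.GHK

/-- rank 2: the majorant of the conductor -/
theorem m2 : ∃ c : ℝ, 0 < c ∧ ∀ mu : Fin 2 → ℂ, ∑ j, mu j = 0 →
    ((1 + ∑ j, ‖mu j‖) ^ ((2 : ℝ) ^ 2) /
      ∏ i : Fin 2, ∏ j : Fin 2, (1 + max 0 ((mu i).im - (mu j).im))) ^ (1 / ((2 : ℝ) + 1)) ≤
        c * ∏ j, (1 + ‖mu j‖) := by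
  refine ⟨4, by norm_num, ?_⟩
  intro mu h0
  rw [Fin.sum_univ_two] at h0
  have h1 : mu 1 = -mu 0 := by
    rw [← add_eq_zero_iff_eq_neg, add_comm]
    exact h0
  have h2 : ‖mu 1‖ = ‖mu 0‖ := by rw [h1, norm_neg]
  obtain ⟨x, hx⟩ : ∃ x : ℝ, x = ‖mu 0‖ := ⟨_, rfl⟩
  have hx0 : 0 ≤ x := by rw [hx]; exact norm_nonneg _
  have hpl : 1 ≤ ∏ i : Fin 2, ∏ j : Fin 2, (1 + max 0 ((mu i).im - (mu j).im)) := by
    have hf : ∀ i j : Fin 2, 1 ≤ 1 + max 0 ((mu i).im - (mu j).im) := fun i j => by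
      linarith [le_max_left 0 ((mu i).im - (mu j).im)]
    simp only [Fin.prod_univ_two]
    nlinarith [hf 0 0, hf 0 1, hf 1 0, hf 1 1, mul_le_mul (hf 0 0) (hf 0 1) zero_le_one
      (zero_le_one.trans (hf 0 0)), mul_le_mul (hf 1 0) (hf 1 1) zero_le_one
      (zero_le_one.trans (hf 1 0))]
  obtain ⟨p, hp⟩ : ∃ p : ℝ, p = ∏ i : Fin 2, ∏ j : Fin 2, (1 + max 0 ((mu i).im - (mu j).im)) :=
    ⟨_, rfl⟩
  rw [← hp] at hpl ⊢
  rw [Fin.sum_univ_two, Fin.prod_univ_two, h2, ← hx]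
  have hb : 1 ≤ 1 + (x + x) := by linarith
  have h3 : (1 + (x + x)) ^ ((2 : ℝ) ^ 2) / p ≤ (1 + (x + x)) ^ (4 : ℝ) := by
    rw [show ((2 : ℝ) ^ 2) = 4 by norm_num]
    exact div_le_self (by positivity) hpl
  have h4 : ((1 + (x + x)) ^ (4 : ℝ)) ^ (1 / ((2 : ℝ) + 1)) = (1 + (x + x)) ^ ((4 : ℝ) / 3) := by
    rw [← Real.rpow_mul (by linarith)]
    norm_num
  have h5 : (1 + (x + x)) ^ ((4 : ℝ) / 3) ≤ (1 + (x + x)) ^ (2 : ℝ) :=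
    Real.rpow_le_rpow_of_exponent_le hb (by norm_num)
  have h6 : (1 + (x + x)) ^ (2 : ℝ) = (1 + (x + x)) ^ 2 := by
    rw [← Real.rpow_natCast]
    norm_num
  calc _ ≤ ((1 + (x + x)) ^ (4 : ℝ)) ^ (1 / ((2 : ℝ) + 1)) :=
        Real.rpow_le_rpow (by positivity) h3 (by norm_num)
    _ ≤ (1 + (x + x)) ^ 2 := by rw [h4, ← h6]; exact h5
    _ ≤ 4 * ((1 + x) * (1 + x)) := by nlinarith

end Pool.Agent.H27.L1.H12.GHK
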